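import Mathlib
import Pool.Agent.MP_e24c0b_lc.Defs
import Pool.Agent.Mg.Fe24c0b.G237747

open Pool.Agent.MP_e24c0b_lc

/-- For every `k ≥ 2` the integers are first-order definable, with parameters, in the field of
complex rational functions in `k` variables, in the language `{+, *, 0, 1}`. -/
theorem Pool.Agent.Results.MP_e24c0b_lc.IntDefinableTwoVars.result (k : ℕ) (hk : 2 ≤ k) :
    (Set.univ : Set (FractionRing (MvPolynomial (Fin k) ℂ))).Definable₁ ringLang
      (Set.range (Int.cast : ℤ → FractionRing (MvPolynomial (Fin k) ℂ))) :=
  (great_of_two_le hk).definable
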